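import Pool.Agent.R903.MatFin

/-!
# Kimura finite-dimensionality and linear relations between products of disjoint diagonals

Let `X` be in a class `𝒱` of smooth projective varieties over a field which is closed under
products, and let `e`, `f` be orthogonal idempotent correspondences on `X` which are equal to their
transposes, of dimensions `χ(e) = a` and `χ(f) = -2 g`, where `a` and `g` are natural numbers. Put
`ω = e + f`. The main example is `ω = Δ_X`, where `e` and `f` are the projectors onto the even and
the odd part of the motive of `X`, `a = b_+(X)` and `2 g = b_-(X)`. For a perfect matching `m` of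
the factors of `X^(2n)` let `ω_m` be the product of the classes `(p_i, p_j)^* ω` over the pairs
`{i, j}` of `m`; for `ω = Δ_X` it is the product of `n` disjoint diagonals of `X^(2n)`.

The following are equivalent:

* `(X, e)` is evenly finite-dimensional and `(X, f)` is oddly finite-dimensional,
* `Λ^(a + 1) (X, e) = 0` and `Sym^(2 g + 1) (X, f) = 0`,
* the `(2n - 1)!!` classes `ω_m` are linearly dependent for some `n < (a + 3)(g + 2)`,
* the `(2n - 1)!!` classes `ω_m` are linearly dependent for `n = (a + 1)(g + 1)`,
* for all `n` the classes `ω_m` are linearly dependent if and only if `n ≥ (a + 1)(g + 1)`.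

Moreover the classes `ω_m` are always linearly independent for `n < (a + 1)(g + 1)`.

The bound in the third condition is sharp for the method: the orthosymplectic supergroups
`OSp(a | 2 g)` and `OSp(a + 2 | 2 g + 2)` have the same dimension, and the first relation for the
second group occurs for `n = (a + 3)(g + 2)`.

Idea of the proof. A relation of the smallest number of points is harmonic (all its contractions
vanish), and its orbit has sharp bounds `A`, `B` on the sets of points on which it can be made
alternating or symmetric, `A B ≤ 2 n` and `A - B + 1 = a - 2 g`. Its restrictions to `e` and `f` have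
the same bounds, so that they are relations of the least possible shape if `A < a + 3`. Conversely
let `v` be the harmonic function on the matchings of a rectangle with `a + 1` rows and `2 g + 2`
columns, given by a product of `g + 1` determinants. One colours the points by `e` and `f` and shows
by induction on the number of points with the colour `f` that the coloured classes of `v` vanish:
the contractions of two points with the colour `f` are minus the contractions for the colour `e`,
which vanish by induction; hence the Jucys-Murphy elements of the points with the colour `f` act as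
the scalar `1 + 2 g`, which contradicts the vanishing of `Sym^(2 g + 1)`.
-/

open Pool.Agent.H914 Pool.Agent.R903

universe u v

namespace Pool.Agent.Results.MP_868bb7_ag.DiagonalRelations

theorem result {k : Type u} [Field k] {𝒱 : VarClass k} {C : ChowTheory.{u, v} 𝒱}
    (hP : C.Polarized) (X : 𝒱.Obj) (e f : C.CH (X.prod X)) (he : e ∈ C.gr (X.prod X) X.dim)
    (hf : f ∈ C.gr (X.prod X) X.dim) (hee : C.comp e e = e) (hff : C.comp f f = f)
    (hef : C.comp e f = 0) (hfe : C.comp f e = 0) (hes : C.IsSymmetric e) (hfs : C.IsSymmetric f)
    (a g : ℕ) (ha : C.motDim e = a) (hg : C.motDim f = -2 * g) :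
    List.TFAE [(∃ m, C.ExtVanishes e m) ∧ ∃ m, C.SymVanishes f m,
      C.ExtVanishes e (a + 1) ∧ C.SymVanishes f (2 * g + 1),
      ∃ n < (a + 3) * (g + 2), C.MatchingDependent (e + f) n,
      C.MatchingDependent (e + f) ((a + 1) * (g + 1)),
      ∀ n, C.MatchingDependent (e + f) n ↔ (a + 1) * (g + 1) ≤ n] ∧
    (∀ n, C.MatchingDependent (e + f) n → (a + 1) * (g + 1) ≤ n) ∧
    ((∃ n < (a + 3) * (g + 2), C.MatchingDependent (e + f) n) → C.KimuraFinite (e + f)) := by
  have h : Mat.IsPair C e f := ⟨hee, hff, hef, hfe, hes, hfs⟩
  have h1 := ChowTheory.even_odd_tfae hP h ha hg
  refine ⟨h1, fun n hn => ChowTheory.le_of_matchingDependent hP h ha hg hn, fun h2 => ?_⟩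
  obtain ⟨h3, h4⟩ := (h1.out 2 0).1 h2
  exact ⟨e, he, f, hf, hee, hff, hef, hfe, rfl, h3, h4⟩

end Pool.Agent.Results.MP_868bb7_ag.DiagonalRelations
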