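import Pool.Agent.R903.PermKim

/-!
# Kimura finite-dimensionality and linear relations between permutations

Let `M = (X, ω)` be a Chow motive, `X` in a class `𝒱` of smooth projective varieties over a field
which is closed under products, `ω` an idempotent correspondence, and let `χ(M)` be its dimension,
the degree of the restriction of `ω` to the diagonal (for `ω = Δ_X` it is the Euler characteristic
of `X`). For a permutation `σ` of `m` letters let `ω_σ` be the class `∏ p_{i, σ(i)}^* ω` on
`X^m × X^m`; this is the permutation `σ` of the factors of the motive `M ⊗ ⋯ ⊗ M`.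

* `M` is evenly finite-dimensional if and only if the `m!` permutations `ω_σ` are linearly dependent
  for some `m ≤ 2 χ(M) + 3`. In this case `χ(M) ≥ 0` is an integer and `Λ^(χ(M) + 1) M = 0`.
* `M` is oddly finite-dimensional if and only if the `m!` permutations `ω_σ` are linearly dependent
  for some `m ≤ -2 χ(M) + 3`. In this case `χ(M) ≤ 0` is an integer and `Sym^(1 - χ(M)) M = 0`.
* If the motive of `X` is a direct sum of motives `M_j` and for each `j` the permutations of some
  tensor power `M_j ⊗ ⋯ ⊗ M_j` with at most `2 |χ(M_j)| + 3` factors are linearly dependent, then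
  `X` is Kimura finite-dimensional. For a Chow–Künneth decomposition `|χ(M_j)|` is the `j`-th Betti
  number of `X`.

So an arbitrary linear relation between the permutations is as good as the vanishing of the
(anti)symmetrizer, as long as there are not more than `2 |χ(M)| + 3` factors. Idea of the proof: the
relations form two-sided ideals `I_m` in the group algebras of the symmetric groups, and partial
traces map `I_m` to `I_(m-1)`. All partial traces of an element `a` of the first non-zero ideal
vanish, so that `a` is an eigenvector of the Jucys–Murphy element `∑ (i m)`, and of all its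
conjugates, with eigenvalue `-χ(M)`. A positivity argument in the group algebra shows that `a` is
symmetric or antisymmetric if `m < 2 |χ(M)| + 4`.
-/

open Pool.Agent.H914 Pool.Agent.R903

universe u v

namespace Pool.Agent.Results.MP_868bb7_ag.LinearRelations

theorem result {k : Type u} [Field k] {𝒱 : VarClass k} {C : ChowTheory.{u, v} 𝒱}
    (hP : C.Polarized) (X : 𝒱.Obj) :
    (∀ ω ∈ C.gr (X.prod X) X.dim, C.comp ω ω = ω →
      List.TFAE [∃ m, C.ExtVanishes ω m,
        ∃ N : ℕ, (N : ℚ) = C.motDim ω + 1 ∧ C.ExtVanishes ω N,
        ∃ m : ℕ, (m : ℚ) ≤ 2 * C.motDim ω + 3 ∧ C.PermDependent ω m] ∧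
      List.TFAE [∃ m, C.SymVanishes ω m,
        ∃ N : ℕ, (N : ℚ) = -C.motDim ω + 1 ∧ C.SymVanishes ω N,
        ∃ m : ℕ, (m : ℚ) ≤ -2 * C.motDim ω + 3 ∧ C.PermDependent ω m]) ∧
    ∀ (r : ℕ) (p : Fin r → C.CH (X.prod X)), (∀ j, p j ∈ C.gr (X.prod X) X.dim) →
      (∀ j, C.comp (p j) (p j) = p j) → (∀ i j, i ≠ j → C.comp (p i) (p j) = 0) →
      ∑ j, p j = C.diagC X →
      (∀ j, ∃ m : ℕ, (m : ℚ) ≤ 2 * |C.motDim (p j)| + 3 ∧ C.PermDependent (p j) m) →
      C.KimuraFinite (C.diagC X) := by
  refine ⟨fun ω _ hω => ⟨ChowTheory.ext_tfae hP hω, ChowTheory.sym_tfae hP hω⟩, ?_⟩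
  intro r p hp hidem horth hsum hrel
  rw [← hsum]
  exact ChowTheory.kimuraFinite_of_relations hP hp hidem horth hrel

end Pool.Agent.Results.MP_868bb7_ag.LinearRelations
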