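import Pool.Agent.R903.MatMain

/-!
# Kimura finite-dimensionality and linear relations between perfect matchings

Let `M = (X, ω)` be a Chow motive, `X` in a class `𝒱` of smooth projective varieties over a field
which is closed under products, where `ω` is an idempotent correspondence which is equal to its
transpose (for example the diagonal, or the middle summand of a self-dual Chow–Künneth
decomposition), and let `t = χ(M)` be its dimension, the degree of the restriction of `ω` to the
diagonal. For a perfect matching `m` of the factors of `X^(2n)` let `ω_m` be the product of the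
classes `(p_i, p_j)^* ω` over the pairs `{i, j}` of `m`. There are `(2n - 1)!!` such classes, and
each of them only involves a correspondence on `X × X`; they generate, with the relations of
Beauville–Voisin type, the tautological rings of the powers of `X`.

* `M` is evenly finite-dimensional if and only if the `(2n - 1)!!` classes `ω_m` are linearly
  dependent for some `n ≤ 2 t + 5`. In this case `Λ^(t + 1) M = 0`.
* `M` is oddly finite-dimensional if and only if `t = -2 g` for a natural number `g` and the
  `(2n - 1)!!` classes `ω_m` are linearly dependent for some `n ≤ 3 g + 5`. In this case the sum of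
  all classes `ω_m` on `X^(2g + 2)` is zero.
* If `Δ_X` is a sum of orthogonal symmetric idempotents, each of which has such a relation, then `X`
  is Kimura finite-dimensional.

The bounds are sharp for the method: `O(t)` and `OSp(t + 2 | 2)` have the same invariant `t`, and
the first relation for the second group occurs for `n = 2 t + 6`; similarly for `Sp(2 g)` and
`OSp(2 | 2 g + 2)` the first relation for the second group occurs for `n = 3 g + 6`.

For a smooth quintic threefold and `ω = π_3` one has `t = -204`: so it is Kimura finite-dimensional
if and only if there is some nontrivial linear relation between the `(2n - 1)!!` classes `ω_m` for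
some `n ≤ 311`. (In cohomology there are relations as soon as `n ≥ 103`.)

Idea of the proof: the relations are stable under the permutations of the factors and under
contractions (restriction to a diagonal and push-forward). A relation `v` all of whose contractions
vanish satisfies `∑_{r ≠ q} (q r) v = (1 - t) v` for all `q`. Considering a maximal subset on which
such a `v` can be (anti)symmetrized one sees that the number of points is `a b` with `b - a = 1 - t`
and `b` even, where `a` (resp. `b`) is the size of a maximal set on which a relation is alternating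
(resp. symmetric).
-/

open Pool.Agent.H914 Pool.Agent.R903

universe u v

namespace Pool.Agent.Results.MP_868bb7_ag.MatchingRelations

theorem result {k : Type u} [Field k] {𝒱 : VarClass k} {C : ChowTheory.{u, v} 𝒱}
    (hP : C.Polarized) (X : 𝒱.Obj) :
    (∀ ω ∈ C.gr (X.prod X) X.dim, C.comp ω ω = ω → C.IsSymmetric ω →
      List.TFAE [∃ m, C.ExtVanishes ω m,
        ∃ N : ℕ, (N : ℚ) = C.motDim ω + 1 ∧ C.ExtVanishes ω N,
        ∃ n : ℕ, (n : ℚ) ≤ 2 * C.motDim ω + 5 ∧ C.MatchingDependent ω n] ∧
      List.TFAE [∃ m, C.SymVanishes ω m,
        ∃ N : ℕ, (N : ℚ) = -C.motDim ω + 1 ∧ C.SymVanishes ω N,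
        ∃ g : ℕ, C.motDim ω = -2 * g ∧ ∑ m, C.matchingClass ω (2 * g + 1) m = 0,
        ∃ g : ℕ, C.motDim ω = -2 * g ∧ ∃ n ≤ 3 * g + 5, C.MatchingDependent ω n,
        ∃ n : ℕ, (n : ℚ) ≤ 2 - C.motDim ω ∧ C.MatchingDependent ω n]) ∧
    ∀ (r : ℕ) (p : Fin r → C.CH (X.prod X)), (∀ j, p j ∈ C.gr (X.prod X) X.dim) →
      (∀ j, C.comp (p j) (p j) = p j) → (∀ i j, i ≠ j → C.comp (p i) (p j) = 0) →
      (∀ j, C.IsSymmetric (p j)) → ∑ j, p j = C.diagC X →
      (∀ j, ∃ n : ℕ, C.MatchingDependent (p j) n ∧ ((n : ℚ) ≤ 2 * C.motDim (p j) + 5 ∨
        (n : ℚ) ≤ 2 - C.motDim (p j) ∨ ∃ g : ℕ, C.motDim (p j) = -2 * g ∧ n ≤ 3 * g + 5)) →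
      C.KimuraFinite (C.diagC X) := by
  refine ⟨fun ω _ hω hs => ⟨ChowTheory.ext_matching_tfae hP hω hs,
    ChowTheory.sym_matching_tfae hP hω hs⟩, ?_⟩
  intro r p hp hidem horth hs hsum hrel
  rw [← hsum]
  exact ChowTheory.kimuraFinite_of_matchings hP hp hidem horth hs hrel

end Pool.Agent.Results.MP_868bb7_ag.MatchingRelations
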