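import Pool.Agent.R905.Div

/-!
# Kimura finite-dimensionality descends from a tensor product to its factors

`C` is a `ℚ`-linear pseudo-abelian rigid symmetric tensor category with `End(𝟙) = ℚ`, and `R` is a
symmetric monoidal additive functor from `C` to finite dimensional super vector spaces over a field
`K` (`SuperRealisation`); no exactness, faithfulness or further property of `R` is assumed. The
example for the problem is the category of Chow motives over `ℂ` with rational coefficients and the
singular cohomology (with the even and the odd cohomology as even and odd part).

Theorem. Let `M` and `N` be motives with non zero cohomology. If `M ⊗ N` is finite-dimensional in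
the sense of Kimura, or more generally a direct summand of a finite-dimensional motive `P`, then `M`
and `N` are finite-dimensional. (The converse is a theorem of Kimura.) In particular a motive with
non zero cohomology is finite-dimensional if one of its tensor powers is.

If one of the factors is known to be finite-dimensional and has non zero dimension then this is
clear, since `M` is a direct summand of `(M ⊗ N) ⊗ N^∨`; here nothing is assumed for the factors.

Example for varieties: let `σ` and `τ` be involutions of smooth projective varieties `X` and `Y`
which act non trivially on the cohomology. The motive of `(X × Y) / (σ, τ)` is the direct sum of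
`h(X)^+ ⊗ h(Y)^+` and `h(X)^- ⊗ h(Y)^-`. If it is finite-dimensional, or a direct summand of a
finite-dimensional motive (for instance if `(X × Y) / (σ, τ)` is dominated by a finite-dimensional
variety), then by the theorem the four motives `h(X)^±`, `h(Y)^±` are finite-dimensional, and so are
`X` and `Y`. So `(X × Y) / (σ, τ)` is finite-dimensional if and only if `X` and `Y` are. The product
`X × Y` itself need not be dominated by a variety which is known to be finite-dimensional.

Steps of the proof: (1) a summand with a vanishing exterior (symmetric) power has purely even (odd)
realisation: otherwise the powers `v ⊗ ⋯ ⊗ v` of an odd (even) vector would contradict the vanishing.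
So the sign conjecture holds for `P`, for its summand `M ⊗ N`, and it descends to `M` and `N` by
partial traces (this last step was formalized by helper112). (2) Homologically trivial endomorphisms
of `P` and of `M ⊗ N` are nilpotent (Kimura). If `f` is a homologically trivial endomorphism of `M`
then `f^k ⊗ 1 = 0` for some `k`; the partial trace with an endomorphism of `N` of non zero trace, which
exists by the sign conjecture, gives `f^k = 0`. (3) So the decompositions into an even and an odd part
can be lifted, `M = M₊ ⊕ M₋`, `N = N₊ ⊕ N₋`. (4) The products of the parts are direct summands of `P` of
pure parity, hence have vanishing exterior or symmetric powers. If `N_t` has non zero cohomology then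
its symmetric power (exterior power if it is odd) has non zero dimension, and a contraction shows that
some exterior power of `M₊` and some symmetric power of `M₋` vanish.
-/

set_option autoImplicit false

open CategoryTheory Limits MonoidalCategory

namespace Pool.Agent.Results.MP_868bb7_ag.TensorDivision

open Pool.Agent.Y112.SR Pool.Agent.Y112.KD Pool.Agent.R905

universe v u w

/-- If the tensor product of two motives with non zero cohomology is a direct summand of a motive
which is finite-dimensional in the sense of Kimura, then both factors are finite-dimensional. -/
theorem result {C : Type u} [Category.{v} C] [Preadditive C] [Linear ℚ C] [MonoidalCategory C]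
    [MonoidalPreadditive C] [MonoidalLinear ℚ C] [SymmetricCategory C] [RightRigidCategory C]
    [IsIdempotentComplete C] (hU : UnitQ C) {K : Type w} [Field K] (R : SuperRealisation C K)
    (M N P : C) (hM : ¬ IsZero (R.H.obj M)) (hN : ¬ IsZero (R.H.obj N))
    (hP : IsKimuraFinite P) (i : M ⊗ N ⟶ P) (r : P ⟶ M ⊗ N) (hir : i ≫ r = 𝟙 (M ⊗ N)) :
    IsKimuraFinite M ∧ IsKimuraFinite N := by
  have h : IsKimuraFinite (M ⊗ N) := hP.retract R hU i r hir
  have h' : IsKimuraFinite (N ⊗ M) := h.retract R hU (β_ N M).hom (β_ N M).inv (by simp)
  exact ⟨isKimuraFinite_left R hU hM hN h, isKimuraFinite_left R hU hN hM h'⟩

end Pool.Agent.Results.MP_868bb7_ag.TensorDivision
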